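import Mathlib
import Pool.Graph.R_pool_sql_team_seeded_620a6dc7.Helper123.Asm

set_option autoImplicit false

namespace Pool.Agent.Results.MP_fedc70_an.LocalIdeal

open Metric Set

/-- `D` is a bounded strictly pseudoconvex open set with smooth boundary (it need not be
connected; in one variable every bounded open set with smooth boundary qualifies). -/
def SPsc {n : ℕ} (D : Set (EuclideanSpace ℂ (Fin n))) : Prop :=
  D.Nonempty ∧ IsOpen D ∧ Bornology.IsBounded D ∧
  ∃ ρ : EuclideanSpace ℂ (Fin n) → ℝ, ContDiff ℝ ((⊤ : ℕ∞) : WithTop ℕ∞) ρ ∧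
    D = {z | ρ z < 0} ∧
    (∀ z, ρ z = 0 → fderiv ℝ ρ z ≠ 0) ∧
    (∀ z, ρ z = 0 → ∀ w : EuclideanSpace ℂ (Fin n), w ≠ 0 →
      fderiv ℝ ρ z w = 0 → fderiv ℝ ρ z (Complex.I • w) = 0 →
      0 < iteratedFDeriv ℝ 2 ρ z ![w, w] +
            iteratedFDeriv ℝ 2 ρ z ![Complex.I • w, Complex.I • w])

/-- `E` is a set of non-uniqueness for `A^∞(D)`: some `f ∈ A^∞(D)`, not identically zero, has zero
set exactly `E` in the closure of `D` and all its derivatives vanish on `E`. -/
def NonUniq {n : ℕ} (D E : Set (EuclideanSpace ℂ (Fin n))) : Prop :=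
  ∃ f : EuclideanSpace ℂ (Fin n) → ℂ, DifferentiableOn ℂ f D ∧
    ContinuousOn f (closure D) ∧
    (∀ k : ℕ, ∃ g : EuclideanSpace ℂ (Fin n) →
        ContinuousMultilinearMap ℝ (fun _ : Fin k => EuclideanSpace ℂ (Fin n)) ℂ,
      ContinuousOn g (closure D) ∧ (∀ z ∈ D, iteratedFDeriv ℝ k f z = g z) ∧
      (∀ z ∈ E, g z = 0)) ∧
    (∃ z ∈ D, f z ≠ 0) ∧
    {z | z ∈ closure D ∧ f z = 0} = E

section
variable {n : ℕ} {D : Set (EuclideanSpace ℂ (Fin n))}

lemma nonUniq_empty (h : D.Nonempty) : NonUniq D ∅ := by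
  obtain ⟨z0, hz0⟩ := h
  refine ⟨fun _ => 1, differentiableOn_const _, continuousOn_const, ?_, ⟨z0, hz0, one_ne_zero⟩, ?_⟩
  · intro k
    refine ⟨iteratedFDeriv ℝ k (fun _ => (1 : ℂ)), ?_, fun z _ => rfl,
      fun z hz => absurd hz (by simp)⟩
    have h1 : ContDiff ℝ ((⊤ : ℕ∞) : WithTop ℕ∞)
      (fun _ : EuclideanSpace ℂ (Fin n) => (1 : ℂ)) := contDiff_const
    exact (h1.continuous_iteratedFDeriv (m := k) (by exact_mod_cast le_top)).continuousOn
  · ext z; simp

lemma nu_subset (hn : 1 ≤ n) (hD : SPsc D) {E F : Set (EuclideanSpace ℂ (Fin n))}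
    (hE : E ⊆ frontier D) (h : NonUniq D E) (hFE : F ⊆ E) (hF : IsClosed F) (hFn : F.Nonempty) :
    Pool.Agent.Helper123.NU D F := by
  obtain ⟨hne, ho, hb, ρ, hρ, hDρ, hgrad, hlevi⟩ := hD
  obtain ⟨f, hf⟩ := h
  obtain ⟨ρ1, c, hD'⟩ := Pool.Agent.Helper123.exists_spd D hne ho hb ρ hρ hDρ hgrad hlevi
  exact Pool.Agent.Helper123.NU_of_subset hn hD' hE (f := f) hf F hF hFn hFE

lemma of_nu (hD : SPsc D) {F : Set (EuclideanSpace ℂ (Fin n))}
    (hFD : F ⊆ frontier D) (hF : IsClosed F) (hFn : F.Nonempty)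
    (h : Pool.Agent.Helper123.NU D F) : NonUniq D F := by
  obtain ⟨hne, ho, hb, -⟩ := hD
  obtain ⟨f', hf'⟩ := Pool.Agent.Helper123.NU_final hne ho hb hF hFn hFD h
  exact ⟨f', hf'⟩

lemma subset (hn : 1 ≤ n) (hD : SPsc D) {E F : Set (EuclideanSpace ℂ (Fin n))}
    (hE : E ⊆ frontier D) (h : NonUniq D E) (hFE : F ⊆ E) (hF : IsClosed F) : NonUniq D F := by
  rcases F.eq_empty_or_nonempty with rfl | hFn
  · exact nonUniq_empty hD.1
  · exact of_nu hD (hFE.trans hE) hF hFn (nu_subset hn hD hE h hFE hF hFn)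

lemma union (hn : 1 ≤ n) (hD : SPsc D) {E F : Set (EuclideanSpace ℂ (Fin n))}
    (hE : E ⊆ frontier D) (hEc : IsClosed E) (hF : F ⊆ frontier D) (hFc : IsClosed F)
    (h1 : NonUniq D E) (h2 : NonUniq D F) : NonUniq D (E ∪ F) := by
  rcases F.eq_empty_or_nonempty with rfl | hFn
  · rwa [union_empty]
  rcases E.eq_empty_or_nonempty with rfl | hEn
  · rwa [empty_union]
  refine of_nu hD (union_subset hE hF) (hEc.union hFc) (hEn.mono subset_union_left) ?_
  exact Pool.Agent.Helper123.NU_union hD.2.2.1 hEn hFn hEc hFc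
    (nu_subset hn hD hE h1 subset_rfl hEc hEn) (nu_subset hn hD hF h2 subset_rfl hFc hFn)

lemma local_iff (hn : 1 ≤ n) (hD : SPsc D) {E : Set (EuclideanSpace ℂ (Fin n))}
    (hE : E ⊆ frontier D) (hEc : IsClosed E) :
    NonUniq D E ↔ ∀ p ∈ E, ∃ r > 0, NonUniq D (E ∩ closedBall p r) := by
  constructor
  · intro h p _
    exact ⟨1, one_pos, subset hn hD hE h inter_subset_left (hEc.inter isClosed_closedBall)⟩
  · intro h
    choose! r hr hN using h
    have hEb : Bornology.IsBounded E :=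
      (hD.2.2.1.closure).subset (hE.trans frontier_subset_closure)
    have hK : IsCompact E := isCompact_of_isClosed_isBounded hEc hEb
    obtain ⟨s, hsE, hs⟩ := hK.elim_nhds_subcover (fun p => ball p (r p))
      (fun p hp => ball_mem_nhds p (hr p hp))
    have key : ∀ t : Finset (EuclideanSpace ℂ (Fin n)), (∀ p ∈ t, p ∈ E) →
        NonUniq D (⋃ p ∈ t, E ∩ closedBall p (r p)) := by
      classical
      intro t
      induction t using Finset.induction_on with
      | empty => intro _; simpa using nonUniq_empty hD.1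
      | insert a t ha ih =>
        intro hp
        rw [Finset.set_biUnion_insert]
        have hsub : (⋃ p ∈ t, E ∩ closedBall p (r p)) ⊆ E := by
          intro x hx
          simp only [mem_iUnion] at hx
          obtain ⟨p, _, hx⟩ := hx
          exact hx.1
        refine union hn hD (inter_subset_left.trans hE) (hEc.inter isClosed_closedBall)
          (hsub.trans hE) ?_ (hN a (hp a (Finset.mem_insert_self a t)))
          (ih fun p hpt => hp p (Finset.mem_insert_of_mem hpt))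
        exact t.finite_toSet.isClosed_biUnion fun p _ => hEc.inter isClosed_closedBall
    have hU : (⋃ p ∈ s, E ∩ closedBall p (r p)) = E := by
      apply Subset.antisymm
      · intro x hx
        simp only [mem_iUnion] at hx
        obtain ⟨p, _, hx⟩ := hx
        exact hx.1
      · intro x hx
        have := hs hx
        simp only [mem_iUnion] at this ⊢
        obtain ⟨p, hp, hx'⟩ := this
        exact ⟨p, hp, hx, ball_subset_closedBall hx'⟩
    rw [← hU]
    exact key s hsE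

end

/-- in one variable the Levi condition is vacuous -/
lemma dim_one (D : Set (EuclideanSpace ℂ (Fin 1))) (hne : D.Nonempty) (ho : IsOpen D)
    (hb : Bornology.IsBounded D)
    (h : ∃ ρ : EuclideanSpace ℂ (Fin 1) → ℝ, ContDiff ℝ ((⊤ : ℕ∞) : WithTop ℕ∞) ρ ∧
      D = {z | ρ z < 0} ∧ (∀ z, ρ z = 0 → fderiv ℝ ρ z ≠ 0)) : SPsc D := by
  obtain ⟨ρ, h1, h2, h3⟩ := h
  refine ⟨hne, ho, hb, ρ, h1, h2, h3, ?_⟩
  intro z hz w hw e1 e2
  refine absurd ?_ (h3 z hz)
  ext v
  have hw0 : w 0 ≠ 0 := by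
    intro h0
    apply hw
    ext i
    rw [Subsingleton.elim i 0, h0]
    rfl
  have hv : v = (v 0 / w 0).re • w + (v 0 / w 0).im • (Complex.I • w) := by
    ext i
    rw [Subsingleton.elim i 0]
    simp only [PiLp.add_apply, PiLp.smul_apply, Complex.real_smul, smul_eq_mul]
    rw [← mul_assoc, ← add_mul, Complex.re_add_im, div_mul_cancel₀ _ hw0]
  rw [hv, map_add, map_smul, map_smul, e1, e2]
  simp

/-- In every dimension `n ≥ 1` the closed sets of non-uniqueness form an ideal, closed under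
finite unions and closed subsets, and being one is a local property. In one variable this applies
to every bounded open set with smooth boundary. -/
theorem result :
    (∀ (n : ℕ), 1 ≤ n → ∀ D : Set (EuclideanSpace ℂ (Fin n)), SPsc D →
      NonUniq D ∅ ∧
      (∀ E F, E ⊆ frontier D → NonUniq D E → F ⊆ E → IsClosed F → NonUniq D F) ∧
      (∀ E F, E ⊆ frontier D → IsClosed E → F ⊆ frontier D → IsClosed F →
        (NonUniq D (E ∪ F) ↔ NonUniq D E ∧ NonUniq D F)) ∧
      (∀ E, E ⊆ frontier D → IsClosed E →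
        (NonUniq D E ↔ ∀ p ∈ E, ∃ r > 0, NonUniq D (E ∩ closedBall p r)))) ∧
    (∀ D : Set (EuclideanSpace ℂ (Fin 1)), D.Nonempty → IsOpen D → Bornology.IsBounded D →
      (∃ ρ : EuclideanSpace ℂ (Fin 1) → ℝ, ContDiff ℝ ((⊤ : ℕ∞) : WithTop ℕ∞) ρ ∧
        D = {z | ρ z < 0} ∧ (∀ z, ρ z = 0 → fderiv ℝ ρ z ≠ 0)) → SPsc D) :=
  ⟨fun _ hn _ hD => ⟨nonUniq_empty hD.1, fun _ _ hE h hFE hF => subset hn hD hE h hFE hF,
    fun _ _ hE hEc hF hFc => ⟨fun h =>
      ⟨subset hn hD (union_subset hE hF) h subset_union_left hEc,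
        subset hn hD (union_subset hE hF) h subset_union_right hFc⟩,
      fun h => union hn hD hE hEc hF hFc h.1 h.2⟩,
    fun _ hE hEc => local_iff hn hD hE hEc⟩, dim_one⟩

end Pool.Agent.Results.MP_fedc70_an.LocalIdeal
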